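import Mathlib
import Pool.Agent.N178.MU.Murre

/-!
# Existence of Chow–Künneth decompositions for direct summands of motives of abelian varieties

The Künneth projectors of a direct summand `M = (X, p)` of the motive of an abelian variety `X` are
lifted to orthogonal idempotents with sum `p`, since homologically trivial correspondences of degree
zero are nilpotent.
-/

set_option linter.unusedSectionVars false

namespace Pool.Agent.V5helper93.Murre

open Module Pool.Agent.Y90 Pool.Agent.R915 Pool.Agent.N178.BL Pool.Agent.N178.GB Pool.Agent.N178.MU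

noncomputable section

variable {C : ChowTheory} {X : AV}

/-- The subgroup of correspondences of degree zero. -/
def degZero (C : ChowTheory) (X : AV) : AddSubgroup (C.Co X X) where
  carrier := {f | C.IsDeg 0 f}
  add_mem' := fun ha hb => deg_add ha hb
  zero_mem' := deg_zero (C.deg_one X)
  neg_mem' := fun ha => deg_neg' ha

/-- The correspondences of degree zero from `X` to `X`. -/
def EndC (C : ChowTheory) (X : AV) : Type := degZero C X

instance : AddCommGroup (EndC C X) := inferInstanceAs (AddCommGroup (degZero C X))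

/-- The ring of correspondences of degree zero, with the multiplication `f * g = g ∘ f`. -/
instance : Ring (EndC C X) :=
  { (inferInstance : AddCommGroup (EndC C X)) with
    mul := fun f g => ⟨C.o g.1 f.1, by
      have h := C.deg_o f.1 g.1 f.2 g.2
      rw [add_zero] at h
      exact h⟩
    one := ⟨C.one X, C.deg_one X⟩
    mul_assoc := fun f g h => Subtype.ext (C.assoc f.1 g.1 h.1)
    one_mul := fun f => Subtype.ext (C.o_one f.1)
    mul_one := fun f => Subtype.ext (C.one_o f.1)
    left_distrib := fun f g h => Subtype.ext (C.add_o g.1 h.1 f.1)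
    right_distrib := fun f g h => Subtype.ext (C.o_add h.1 f.1 g.1)
    zero_mul := fun f => Subtype.ext (o_zero f.1)
    mul_zero := fun f => Subtype.ext (zero_o f.1) }

theorem val_mul (f g : EndC C X) : (f * g).1 = C.o g.1 f.1 := rfl

theorem val_one : (1 : EndC C X).1 = C.one X := rfl

theorem val_zero : (0 : EndC C X).1 = 0 := rfl

/-- The inclusion as a homomorphism of groups. -/
def valHom (C : ChowTheory) (X : AV) : EndC C X →+ C.Co X X := (degZero C X).subtype

/-- The action on the cohomology. -/
def act (C : ChowTheory) (X : AV) : EndC C X →+* AddMonoid.End (HT X) where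
  toFun f := { toFun := C.pb f.1, map_zero' := pb_zero f.1, map_add' := C.pb_add f.1 }
  map_one' := by
    ext ω : 1
    exact C.pb_one X ω
  map_mul' f g := by
    ext ω : 1
    exact C.pb_o f.1 g.1 ω
  map_zero' := by
    ext ω : 1
    exact zero_pb ω
  map_add' f g := by
    ext ω : 1
    exact C.add_pb f.1 g.1 ω

theorem act_apply (f : EndC C X) (ω : HT X) : act C X f ω = C.pb f.1 ω := rfl

theorem val_pow (f : EndC C X) (n : ℕ) : (f ^ n).1 = (fun g => C.o f.1 g)^[n] (C.one X) := by
  induction n with
  | zero => rw [pow_zero]; rfl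
  | succ n ih => rw [pow_succ, val_mul, ih, Function.iterate_succ_apply']

theorem nil_of_ker (f : EndC C X) (hf : f ∈ RingHom.ker (act C X)) : IsNilpotent f := by
  obtain ⟨N, hN⟩ := C.nilpotent f.1 f.2 fun ω => by
    have h1 : act C X f = 0 := hf
    rw [← act_apply, h1]
    rfl
  exact ⟨N, Subtype.ext (by rw [val_pow, hN]; rfl)⟩

/-- The component of degree `m`. -/
def trunc (X : AV) (m : ℕ) : AddMonoid.End (HT X) where
  toFun ω := fun l => if l = m then ω l else 0
  map_zero' := by
    funext l
    exact ite_self _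
  map_add' ω η := by
    funext l
    change (if l = m then ω l + η l else 0) = (if l = m then ω l else 0) + if l = m then η l else 0
    split_ifs
    · rfl
    · rw [add_zero]

theorem trunc_apply (m : ℕ) (ω : HT X) (l : ℕ) : trunc X m ω l = if l = m then ω l else 0 := rfl

theorem trunc_mul_self (m : ℕ) : trunc X m * trunc X m = trunc X m := by
  ext ω : 1
  funext l
  change (if l = m then (if l = m then ω l else 0) else 0) = if l = m then ω l else 0
  split_ifs <;> rfl

theorem trunc_mul_ne {m n : ℕ} (h : m ≠ n) : trunc X m * trunc X n = 0 := by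
  ext ω : 1
  funext l
  change (if l = m then (if l = n then ω l else 0) else 0) = 0
  split_ifs with h1 h2
  · omega
  · rfl
  · rfl

theorem sum_trunc {N : ℕ} (hN : finrank ℚ X.H < N) : ∑ m : Fin N, trunc X m = 1 := by
  ext ω : 1
  funext l
  have h1 : (∑ m : Fin N, trunc X m) ω = ∑ m : Fin N, trunc X m ω :=
    map_sum (AddMonoidHom.mk' (fun f : AddMonoid.End (HT X) => f ω) fun _ _ => rfl) _ _
  have h2 : (∑ m : Fin N, trunc X m ω) l = ∑ m : Fin N, trunc X m ω l := Finset.sum_apply l _ _
  rw [h1, h2]
  simp only [trunc_apply]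
  change _ = ω l
  by_cases hl : l < N
  · rw [Finset.sum_eq_single (⟨l, hl⟩ : Fin N) (fun m _ hm => if_neg fun h => hm (Fin.ext h.symm))
      (fun h => absurd (Finset.mem_univ _) h), if_pos rfl]
  · rw [form_zero (by omega) (ω l)]
    exact Finset.sum_eq_zero fun m _ => ite_self _

variable (K : Projectors C)

/-- The projector to `h_m (X)` as an element of the ring. -/
def prE (X : AV) (m : ℕ) : EndC C X := ⟨K.pr X m, K.deg X m⟩

theorem act_pr (m : ℕ) : act C X (prE K X m) = trunc X m := by
  ext ω : 1
  funext l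
  change C.pb (K.pr X m) ω l = if l = m then ω l else 0
  split_ifs with h
  · subst h
    exact (K.kunneth X l ω).1
  · exact (K.kunneth X m ω).2 l h

include K in
theorem act_comm (f : EndC C X) (m : ℕ) : act C X f * trunc X m = trunc X m * act C X f := by
  ext ω : 1
  funext l
  change C.pb f.1 (trunc X m ω) l = if l = m then C.pb f.1 ω l else 0
  split_ifs with h
  · subst h
    refine K.graded 0 f.1 f.2 _ _ l fun a ha => ?_
    have h1 : a = l := by omega
    subst h1
    rw [trunc_apply, if_pos rfl]
  · have h1 := K.graded 0 f.1 f.2 (trunc X m ω) 0 l fun a ha => by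
      have h1 : a = l := by omega
      subst h1
      rw [trunc_apply, if_neg h]
      rfl
    rw [h1, pb_zero]
    rfl

include K in
/-- **Murre's conjecture (A)** for direct summands of motives of abelian varieties. -/
theorem exists_chowKunneth {p : C.Co X X} (hp : C.IsMotive p) : ∃ P, IsChowKunneth p P := by
  classical
  obtain ⟨N, hN⟩ : ∃ N, finrank ℚ X.H < N := ⟨_, Nat.lt_succ_self _⟩
  obtain ⟨a, ha⟩ : ∃ a : EndC C X, a.1 = p := ⟨⟨p, hp.1⟩, rfl⟩
  have haa : a * a = a := Subtype.ext (by rw [val_mul, ha]; exact hp.2)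
  set π := act C X a with hπ
  have hππ : π * π = π := by rw [hπ, ← map_mul, haa]
  have hcomm : ∀ m, π * trunc X m = trunc X m * π := fun m => act_comm K a m
  have horth : OrthogonalIdempotents fun m : Fin N => π * trunc X m := by
    refine ⟨fun m => ?_, fun m n hmn => ?_⟩
    · change π * trunc X m * (π * trunc X m) = π * trunc X m
      rw [mul_assoc, ← mul_assoc (trunc X m), ← hcomm, mul_assoc π (trunc X m),
        trunc_mul_self, ← mul_assoc, hππ]
    · change π * trunc X m * (π * trunc X n) = 0
      rw [mul_assoc, ← mul_assoc (trunc X m), ← hcomm, mul_assoc π (trunc X m),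
        trunc_mul_ne (fun h => hmn (Fin.ext h)), mul_zero, mul_zero]
  obtain ⟨e, he, hee⟩ := OrthogonalIdempotents.lift_of_isNilpotent_ker (act C X)
    (nil_of_ker) horth (fun m => ⟨a * prE K X m, by rw [map_mul, act_pr]⟩)
  have hem : ∀ m, act C X (e m) = π * trunc X m := fun m => congrFun hee m
  obtain ⟨s, hs⟩ : ∃ s, s = ∑ m, e m := ⟨_, rfl⟩
  have hes : ∀ m, e m * s = e m := by
    intro m
    rw [hs, Finset.mul_sum, Finset.sum_eq_single m (fun n _ hn => he.ortho hn.symm)
      (fun h => absurd (Finset.mem_univ _) h)]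
    exact he.idem m
  have hse : ∀ m, s * e m = e m := by
    intro m
    rw [hs, Finset.sum_mul, Finset.sum_eq_single m (fun n _ hn => he.ortho hn)
      (fun h => absurd (Finset.mem_univ _) h)]
    exact he.idem m
  have hss : s * s = s := by
    conv_lhs => rw [hs, Finset.mul_sum]
    rw [← hs]
    conv_rhs => rw [hs]
    exact Finset.sum_congr rfl fun m _ => hse m
  have hacts : act C X s = π := by
    rw [hs, map_sum, Finset.sum_congr rfl fun m _ => hem m, ← Finset.mul_sum, sum_trunc hN, mul_one]
  obtain ⟨u, hu⟩ : ∃ u, u = a * s + (1 - a) * (1 - s) := ⟨_, rfl⟩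
  have ha1 : a * (1 - a) = 0 := by rw [mul_sub, mul_one, haa, sub_self]
  have hs1 : (1 - s) * s = 0 := by rw [sub_mul, one_mul, hss, sub_self]
  have hau : a * u = a * s := by
    rw [hu, mul_add, ← mul_assoc, ← mul_assoc, haa, ha1, zero_mul, add_zero]
  have hus : u * s = a * s := by
    rw [hu, add_mul, mul_assoc, mul_assoc, hss, hs1, mul_zero, add_zero]
  have hactu : act C X u = 1 := by
    rw [hu, map_add, map_mul, map_mul, map_sub, map_sub, map_one, hacts, ← hπ, hππ, mul_sub, mul_one,
      sub_mul, one_mul, hππ]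
    abel
  have hunit : IsUnit u := by
    have h1 : IsNilpotent (u - 1) := nil_of_ker _ (by
      rw [RingHom.mem_ker, map_sub, hactu, map_one, sub_self])
    have h2 := h1.isUnit_one_add
    rwa [add_sub_cancel] at h2
  obtain ⟨v, hv⟩ := hunit
  have hvv : act C X (↑v⁻¹ : EndC C X) = 1 := by
    have h1 : act C X ((↑v⁻¹ : EndC C X) * v) = 1 := by rw [Units.inv_mul, map_one]
    rw [map_mul, hv, hactu, mul_one] at h1
    exact h1
  obtain ⟨q, hq⟩ : ∃ q : Fin N → EndC C X, ∀ m, q m = v * e m * ↑v⁻¹ := ⟨_, fun _ => rfl⟩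
  have hqq : ∀ m, q m * q m = q m := by
    intro m
    rw [hq, mul_assoc, ← mul_assoc (↑v⁻¹ : EndC C X), ← mul_assoc (↑v⁻¹ : EndC C X),
      Units.inv_mul, one_mul, ← mul_assoc, mul_assoc (v : EndC C X), he.idem m]
  have hqn : ∀ m n, m ≠ n → q m * q n = 0 := by
    intro m n hmn
    rw [hq, hq, mul_assoc, ← mul_assoc (↑v⁻¹ : EndC C X), ← mul_assoc (↑v⁻¹ : EndC C X),
      Units.inv_mul, one_mul, ← mul_assoc, mul_assoc (v : EndC C X)]
    have h1 : e m * e n = 0 := he.ortho hmn
    rw [h1, mul_zero, zero_mul]
  have hqs : ∑ m, q m = a := by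
    have h1 : ∑ m, q m = v * s * ↑v⁻¹ := by
      rw [hs, Finset.mul_sum, Finset.sum_mul]
      exact Finset.sum_congr rfl fun m _ => hq m
    rw [h1, hv, hus, ← hau, ← hv, mul_assoc, Units.mul_inv, mul_one]
  have hqa : ∀ m, act C X (q m) = π * trunc X m := by
    intro m
    rw [hq, map_mul, map_mul, hvv, mul_one, hv, hactu, one_mul, hem]
  refine ⟨fun m => if h : m < N then (q ⟨m, h⟩).1 else 0, ?_, ?_, ⟨N, ?_, ?_⟩, ?_⟩
  · intro m
    dsimp only
    split_ifs with h
    · refine ⟨(q ⟨m, h⟩).2, ?_⟩
      rw [← val_mul, hqq]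
    · exact ⟨deg_zero (C.deg_one X), o_zero _⟩
  · intro m l hml
    dsimp only
    split_ifs with h h'
    · rw [← val_mul, hqn _ _ (fun h1 => hml (Fin.mk.inj h1).symm)]
      rfl
    · exact o_zero _
    · exact zero_o _
    · exact o_zero _
  · have h1 : (valHom C X) (∑ m, q m) = ∑ m, (valHom C X) (q m) := map_sum _ _ _
    rw [hqs] at h1
    have h2 : valHom C X a = p := ha
    rw [← h2, h1, Finset.sum_range]
    refine Finset.sum_congr rfl fun m _ => ?_
    rw [dif_pos m.2]
    rfl
  · intro m hm
    exact dif_neg (not_lt.2 hm)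
  · intro m l hlm ω
    dsimp only
    split_ifs with h
    · rw [← act_apply, hqa, hcomm]
      change trunc X m (π ω) l = 0
      rw [trunc_apply, if_neg hlm]
    · rw [zero_pb]
      rfl

end

end Pool.Agent.V5helper93.Murre
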