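import Pool.Agent.X308.S.MotDefs

/-!
# Tame families of motives: definitions
-/

set_option autoImplicit false

universe u v w

namespace Pool.Agent.V5helper93.Murre

open Pool.Agent.H914 Pool.Agent.H914.VarClass Pool.Agent.H914.VarClass.Obj Pool.Agent.W492.BB
  Pool.Agent.W550.Corr Pool.Agent.TH133 Pool.Agent.X308.S

variable {k : Type u} [Field k] {𝒱 : VarClass k}

/-- A motive `M = (X, p, n)` together with a family `π` of self-correspondences of `X`, which will be
a Chow-Kunneth decomposition `M = ⊕ M_i`, `M_i = (X, π i, n)`. -/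
structure MotCK (C : TheoryData.{u, v, 0} 𝒱 ℚ) where
  X : 𝒱.Obj
  p : C.A (X.prod X)
  n : ℤ
  π : ℤ → C.A (X.prod X)

variable {C : TheoryData.{u, v, 0} 𝒱 ℚ} {K : Type w} [Field K] (H : WeilTheoryData.{u, v, w} C K)

/-- For `b < a` there are no morphisms `M_a → N_b` different from zero. (Morphisms `(X, p, n) → (Y,
q, m)` are given by classes in `CH^(dim Y + m - n)(X × Y)`.) -/
def NoLowBetween (M N : MotCK C) : Prop :=
  ∀ γ : C.A (M.X.prod N.X), C.Deg (N.X.dim + N.n - M.n) γ → ∀ a b : ℤ, b < a →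
    C.comp (C.comp (M.π a) γ) (N.π b) = 0

/-- A tame family: Chow-Kunneth decompositions of the members of a set of motives, with the
properties (B) and (D) of Murre, such that there are no morphisms different from zero from pieces of
weight `a` to pieces of weight `b < a` of members of the family. -/
structure IsTame (𝒩 : Set (MotCK C)) : Prop where
  ck : ∀ N ∈ 𝒩, IsMotiveCK H N.p N.n N.π
  B : ∀ N ∈ 𝒩, MotiveB C N.n N.π
  D : ∀ N ∈ 𝒩, MotiveD H N.n N.π
  low : ∀ M ∈ 𝒩, ∀ N ∈ 𝒩, NoLowBetween M N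

/-- The endomorphisms of `(X, Δ, n)` which factor through finite direct sums of motives of the family
`𝒩`. If `p` is one of them, and idempotent, then `(X, p, n)` is a direct summand of a finite direct
sum of members of `𝒩`. -/
noncomputable def through (𝒩 : Set (MotCK C)) (X : 𝒱.Obj) (n : ℤ) :
    Submodule ℚ (C.A (X.prod X)) :=
  Submodule.span ℚ {z | ∃ N ∈ 𝒩, ∃ (a : C.A (X.prod N.X)) (b : C.A (N.X.prod X)),
    C.Deg (N.X.dim + N.n - n) a ∧ C.Deg (X.dim + n - N.n) b ∧ z = C.comp (C.comp a N.p) b}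

/-- The family of all Tate twists of motives of surfaces, with decompositions of Murre's kind. -/
def surfaces : Set (MotCK C) :=
  {M | ∃ (S : 𝒱.Obj) (π : ℕ → C.A (S.prod S)) (n : ℤ), IsMurreCK H S π ∧
    M = ⟨S, dg C S, n, fun i => if 0 ≤ 4 - (i - 2 * n) then π (4 - (i - 2 * n)).toNat else 0⟩}

variable {X : 𝒱.Obj}

/-- The step `ν` of Murre's conjecture (C) for the motive `M = (X, p, n)`: the subgroups
`F^ν CH_l(M) = {z ∈ CH_l(M) | (π i)_* z = 0 for all i < 2 l + ν} = ⊕_(i ≥ 2 l + ν) CH_l(M_i)` of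
`CH_l(M) = {z ∈ CH_(l - n)(X) | p_* z = z}` are the same for all Chow-Kunneth decompositions. -/
def StepC (p : C.A (X.prod X)) (n ν : ℤ) : Prop :=
  ∀ π π', IsMotiveCK H p n π → IsMotiveCK H p n π' → ∀ (l : ℤ) (z : C.A X),
    CycleDim C (l - n) z → C.act p z = z →
      ((∀ i < 2 * l + ν, C.act (π i) z = 0) ↔ ∀ i < 2 * l + ν, C.act (π' i) z = 0)

/-- The phantom direct summands `(X, e, n)` of the motive `M = (X, p, n)` (those with zero homology)
have trivial Chow groups. -/
def NoPhantomCycles (p : C.A (X.prod X)) : Prop :=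
  ∀ e : C.A (X.prod X), C.Deg X.dim e → C.comp e e = e → C.comp p e = e → C.comp e p = e →
    H.cl e = 0 → ∀ x : C.A X, C.act e x = 0

/-- Murre's conjecture (C) for the variety `X`: the subgroups
`F^ν CH^i(X) = {z ∈ CH^i(X) | (π j)_* z = 0 for all j > 2 i - ν}` are the same for all Chow-Kunneth
decompositions of `X`. -/
def VarietyC (X : 𝒱.Obj) : Prop :=
  ∀ π π', IsCK H X π → IsCK H X π' → ∀ (i ν : ℕ) (z : C.A X), C.Deg i z →
    ((∀ j, 2 * i < j + ν → C.act (π j) z = 0) ↔ ∀ j, 2 * i < j + ν → C.act (π' j) z = 0)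

end Pool.Agent.V5helper93.Murre
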