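import Pool.Agent.V5helper93.Murre.Motive

/-!
# Tame families of motives: closure under direct sums and direct summands
-/

set_option autoImplicit false

open CategoryTheory AlgebraicGeometry

universe u v w

namespace Pool.Agent.V5helper93.Murre

open Pool.Agent.H914 Pool.Agent.H914.VarClass Pool.Agent.H914.VarClass.Obj Pool.Agent.W492.BB
  Pool.Agent.W550.Corr Pool.Agent.TH133 Pool.Agent.X308.S

set_option linter.unusedSectionVars false

variable {k : Type u} [Field k] {𝒱 : VarClass k} {C : TheoryData.{u, v, 0} 𝒱 ℚ}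
  [hC : IsChowProj C] {K : Type w} [Field K]
  {H : WeilTheoryData.{u, v, w} C K} [hH : IsWeilProj H] {X Y : 𝒱.Obj} {𝒩 : Set (MotCK C)}

/-- The endomorphisms of `(X, Δ, n)` which factor through pieces of weight `i` of members of `𝒩`. -/
noncomputable def wtG (𝒩 : Set (MotCK C)) (X : 𝒱.Obj) (n i : ℤ) :
    Submodule ℚ (C.A (X.prod X)) :=
  Submodule.span ℚ {z | ∃ N ∈ 𝒩, ∃ (a : C.A (X.prod N.X)) (b : C.A (N.X.prod X)),
    C.Deg (N.X.dim + N.n - n) a ∧ C.Deg (X.dim + n - N.n) b ∧ z = C.comp (C.comp a (N.π i)) b}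

variable {n m : ℤ}

include hC hH

lemma wtG_mem (h : IsTame H 𝒩) {i : ℤ} {x : C.A (X.prod X)} (hx : x ∈ wtG 𝒩 X n i) :
    x ∈ C.gr (X.prod X) X.dim := by
  have h1 : wtG 𝒩 X n i ≤ C.gr (X.prod X) X.dim := by
    unfold wtG
    rw [Submodule.span_le]
    rintro _ ⟨N, hN, a, b, ha, hb, rfl⟩
    have h2 : C.comp a (N.π i) ∈ C.gr (X.prod N.X) (N.X.dim + N.n - n) :=
      comp_deg ha ((h.ck N hN).deg i) (by ring)
    exact comp_deg h2 hb (by ring)
  exact h1 hx

omit hH in
lemma wtG_comp {i : ℤ} {x : C.A (X.prod X)} (hx : x ∈ wtG 𝒩 X n i)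
    {c : C.A (X.prod X)} (hc : c ∈ C.gr (X.prod X) X.dim) : C.comp x c ∈ wtG 𝒩 X n i := by
  have h1 : wtG 𝒩 X n i ≤ (wtG 𝒩 X n i).comap (LinearMap.flip (compL C) c) := by
    conv_lhs => unfold wtG
    rw [Submodule.span_le]
    rintro _ ⟨N, hN, a, b, ha, hb, rfl⟩
    apply Submodule.subset_span
    refine ⟨N, hN, a, C.comp b c, ha, comp_deg hb hc (by ring), ?_⟩
    rw [LinearMap.flip_apply, compL_apply, comp_assoc]
  exact h1 hx

omit hH in
lemma comp_wtG {i : ℤ} {x : C.A (X.prod X)} (hx : x ∈ wtG 𝒩 X n i)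
    {c : C.A (X.prod X)} (hc : c ∈ C.gr (X.prod X) X.dim) : C.comp c x ∈ wtG 𝒩 X n i := by
  have h1 : wtG 𝒩 X n i ≤ (wtG 𝒩 X n i).comap (compL C c) := by
    conv_lhs => unfold wtG
    rw [Submodule.span_le]
    rintro _ ⟨N, hN, a, b, ha, hb, rfl⟩
    apply Submodule.subset_span
    refine ⟨N, hN, C.comp c a, b, comp_deg hc ha (by ring), hb, ?_⟩
    rw [compL_apply, comp_assoc, comp_assoc, comp_assoc]
  exact h1 hx

/-- There are no morphisms between pieces which lower the weight. -/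
lemma wtG_tri (h : IsTame H 𝒩) {a b : ℤ} (hab : b < a) {x : C.A (X.prod X)}
    (hx : x ∈ wtG 𝒩 X n a) {γ : C.A (X.prod Y)} (hγ : γ ∈ C.gr (X.prod Y) (Y.dim + m - n))
    {y : C.A (Y.prod Y)} (hy : y ∈ wtG 𝒩 Y m b) : C.comp (C.comp x γ) y = 0 := by
  have key : ∀ N ∈ 𝒩, ∀ (c : C.A (Y.prod N.X)) (d : C.A (N.X.prod Y)),
      C.Deg (N.X.dim + N.n - m) c → C.comp (C.comp x γ) (C.comp (C.comp c (N.π b)) d) = 0 := by
    intro N hN c d hc
    have h1 : wtG 𝒩 X n a ≤ LinearMap.ker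
        (LinearMap.flip (compL C) (C.comp (C.comp γ c) (N.π b))) := by
      unfold wtG
      rw [Submodule.span_le]
      rintro _ ⟨N', hN', a', b', ha', hb', rfl⟩
      rw [SetLike.mem_coe, LinearMap.mem_ker, LinearMap.flip_apply, compL_apply]
      have h2 : C.comp (C.comp (N'.π a) (C.comp b' (C.comp γ c))) (N.π b) = 0 := by
        refine h.low N' hN' N hN _ ?_ a b hab
        have h3 : C.comp γ c ∈ C.gr (X.prod N.X) (N.X.dim + N.n - n) := comp_deg hγ hc (by ring)
        exact comp_deg hb' h3 (by ring)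
      have h4 : C.comp (C.comp (C.comp a' (N'.π a)) b') (C.comp (C.comp γ c) (N.π b)) =
          C.comp a' (C.comp (C.comp (N'.π a) (C.comp b' (C.comp γ c))) (N.π b)) := by
        simp only [comp_assoc]
      rw [h4, h2, comp_zero]
    have h2 := h1 hx
    rw [LinearMap.mem_ker, LinearMap.flip_apply, compL_apply] at h2
    have h3 : C.comp (C.comp x γ) (C.comp (C.comp c (N.π b)) d) =
        C.comp (C.comp x (C.comp (C.comp γ c) (N.π b))) d := by
      simp only [comp_assoc]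
    rw [h3, h2, zero_comp]
  have h1 : wtG 𝒩 Y m b ≤ LinearMap.ker (compL C (C.comp x γ)) := by
    unfold wtG
    rw [Submodule.span_le]
    rintro _ ⟨N, hN, c, d, hc, hd, rfl⟩
    rw [SetLike.mem_coe, LinearMap.mem_ker, compL_apply]
    exact key N hN c d hc
  have h2 := h1 hy
  rwa [LinearMap.mem_ker, compL_apply] at h2

lemma wtG_tri' (h : IsTame H 𝒩) {a b : ℤ} (hab : b < a) {x y : C.A (X.prod X)}
    (hx : x ∈ wtG 𝒩 X n a) (hy : y ∈ wtG 𝒩 X n b) : C.comp x y = 0 := by
  have h1 := wtG_tri h hab hx (m := n) (γ := dg C X) (by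
    have := dg_mem C X
    rwa [show (X.dim : ℤ) + n - n = X.dim by ring]) hy
  rwa [comp_dg] at h1

/-- The triangular ideals. -/
lemma triG (h : IsTame H 𝒩) (X : 𝒱.Obj) (n : ℤ) :
    TriIdeals (A := Cor C X) (cor0 C X).toSubring
      (fun w : ℤ => (wtG 𝒩 X n (-w)).toAddSubgroup) where
  le _ _ hx := wtG_mem h hx
  left _ _ _ ha hx := wtG_comp hx ha
  right _ _ _ ha hx := comp_wtG hx ha
  tri _ _ _ _ hlt hx hy := wtG_tri' h (by omega) hx hy

/-- The action on the cohomology. -/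
lemma wtG_actH (h : IsTame H 𝒩) {i : ℤ} {x : C.A (X.prod X)} (hx : x ∈ wtG 𝒩 X n i) {j : ℤ}
    {a : H.A X} (ha : a ∈ H.gr X j) (hj : j ≠ 2 * X.dim - (i - 2 * n)) :
    H.act (H.cl x) a = 0 := by
  have key : ∀ x : C.A (X.prod X), x ∈ wtG 𝒩 X n i → H.act (H.cl x) a = 0 := by
    intro x hx
    unfold wtG at hx
    induction hx using Submodule.span_induction with
    | mem x hx =>
      obtain ⟨N, hN, a', b, ha', hb, rfl⟩ := hx
      have h2 := actH_deg (H := H) ha' ha rfl
      rw [actH_comp, actH_comp, (h.ck N hN).act_ne i _ _ (by intro h3; apply hj; linarith) h2,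
        TheoryData.act_map_zero]
    | zero => rw [map_zero, TheoryData.act_zero]
    | add x y _ _ hx hy => rw [map_add, TheoryData.act_add, hx, hy, add_zero]
    | smul q x _ hx =>
      have h3 : H.cl (q • x) = H.cl (q • (1 : C.A (X.prod X))) * H.cl x := by
        rw [← map_mul, smul_mul_assoc, one_mul]
      obtain ⟨c, hc⟩ : ∃ c : K, H.cl (q • (1 : C.A (X.prod X))) = c • 1 := by
        apply hH.gr_zero
        have := H.cl_mem (Submodule.smul_mem _ q (C.one_mem (X.prod X)))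
        simpa using this
      rw [h3, hc, smul_mul_assoc, one_mul, TheoryData.act_apply, smul_mul_assoc, map_smul,
        ← TheoryData.act_apply, hx, smul_zero]
  exact key x hx

lemma wtG_B (h : IsTame H 𝒩) {l i : ℤ} (hi : i < 2 * l) {x : C.A (X.prod X)}
    (hx : x ∈ wtG 𝒩 X n i) {z : C.A X} (hz : z ∈ C.gr X ((X.dim : ℤ) - (l - n))) :
    C.act x z = 0 := by
  have h1 : wtG 𝒩 X n i ≤ LinearMap.ker (LinearMap.flip (actB C) z) := by
    unfold wtG
    rw [Submodule.span_le]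
    rintro _ ⟨N, hN, a, b, ha, hb, rfl⟩
    rw [SetLike.mem_coe, LinearMap.mem_ker, LinearMap.flip_apply, actB_apply, C.act_comp,
      C.act_comp]
    have h2 : C.act (N.π i) (C.act a z) = 0 :=
      h.B N hN l i hi _ (act_deg ha hz (by ring))
    rw [h2, TheoryData.act_map_zero]
  have h2 := h1 hx
  rw [LinearMap.mem_ker, LinearMap.flip_apply, actB_apply] at h2
  exact h2

lemma wtG_D (h : IsTame H 𝒩) {l : ℤ} {x : C.A (X.prod X)} (hx : x ∈ wtG 𝒩 X n (2 * l))
    {z : C.A X} (hz : z ∈ C.gr X ((X.dim : ℤ) - (l - n))) (hcl : H.cl z = 0) :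
    C.act x z = 0 := by
  have h1 : wtG 𝒩 X n (2 * l) ≤ LinearMap.ker (LinearMap.flip (actB C) z) := by
    unfold wtG
    rw [Submodule.span_le]
    rintro _ ⟨N, hN, a, b, ha, hb, rfl⟩
    rw [SetLike.mem_coe, LinearMap.mem_ker, LinearMap.flip_apply, actB_apply, C.act_comp,
      C.act_comp]
    have h3 : H.cl (C.act a z) = 0 := by rw [cl_act H, hcl, TheoryData.act_map_zero]
    have h2 : C.act (N.π (2 * l)) (C.act a z) = 0 :=
      h.D N hN l _ (act_deg ha hz (by ring)) h3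
    rw [h2, TheoryData.act_map_zero]
  have h2 := h1 hx
  rw [LinearMap.mem_ker, LinearMap.flip_apply, actB_apply] at h2
  exact h2

/-- The endomorphisms which factor through the family are sums of endomorphisms which factor through
pieces. -/
lemma through_le_wtG (h : IsTame H 𝒩) (X : 𝒱.Obj) (n : ℤ) :
    through 𝒩 X n ≤ ⨆ i, wtG 𝒩 X n i := by
  unfold through
  rw [Submodule.span_le]
  rintro _ ⟨N, hN, a, b, ha, hb, rfl⟩
  obtain ⟨s, h1⟩ : ∃ s : Finset ℤ, N.p = ∑ i ∈ s, N.π i :=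
    ⟨_, (dec_of (C := C) (X := N.X) (h.ck N hN)).sum.symm⟩
  have h2 : C.comp (C.comp a N.p) b = ∑ i ∈ s, C.comp (C.comp a (N.π i)) b := by
    have h3 : C.comp (C.comp a N.p) b = (LinearMap.flip (compL C) b) (compL C a N.p) := rfl
    rw [h3, h1, map_sum, map_sum]
    rfl
  rw [h2]
  refine Submodule.sum_mem _ fun i _ => ?_
  refine Submodule.mem_iSup_of_mem i (Submodule.subset_span ?_)
  exact ⟨N, hN, a, b, ha, hb, rfl⟩

omit hC in
/-- The family generated by `𝒩`. -/
def genFam (H : WeilTheoryData.{u, v, w} C K) (𝒩 : Set (MotCK C)) : Set (MotCK C) :=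
  {M | IsMotiveCK H M.p M.n M.π ∧ ∀ i, M.π i ∈ wtG 𝒩 M.X M.n i}

theorem genFam_tame (h : IsTame H 𝒩) : IsTame H (genFam H 𝒩) where
  ck _ hM := hM.1
  B _ hM _ i hi _ hz := wtG_B h hi (hM.2 i) hz
  D _ hM l _ hz hcl := wtG_D h (hM.2 (2 * l)) hz hcl
  low _ hM _ hN _ hγ a b hab := wtG_tri h hab (hM.2 a) hγ (hN.2 b)

theorem le_genFam (h : IsTame H 𝒩) : 𝒩 ⊆ genFam H 𝒩 := by
  intro N hN
  refine ⟨h.ck N hN, fun i => Submodule.subset_span ⟨N, hN, dg C N.X, dg C N.X, ?_, ?_, ?_⟩⟩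
  · have := dg_mem C N.X
    rwa [show (N.X.dim : ℤ) = N.X.dim + N.n - N.n by ring] at this
  · have := dg_mem C N.X
    rwa [show (N.X.dim : ℤ) = N.X.dim + N.n - N.n by ring] at this
  · rw [dg_comp, comp_dg]

theorem exists_genFam (h : IsTame H 𝒩) {p : C.A (X.prod X)} (hpp : C.comp p p = p)
    (hp : p ∈ through 𝒩 X n) : ∃ π, (⟨X, p, n, π⟩ : MotCK C) ∈ genFam H 𝒩 := by
  have h1 := through_le_wtG h X n hp
  obtain ⟨f, hf, hfs⟩ := (Submodule.mem_iSup_iff_exists_finsupp _ _).1 h1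
  have hpm : p ∈ C.gr (X.prod X) X.dim := by
    have h6 : (⨆ w, wtG 𝒩 X n w) ≤ C.gr (X.prod X) X.dim := iSup_le fun w x hx => wtG_mem h hx
    exact h6 h1
  have hFs : ∑ w ∈ f.support.image (fun i => -i), f (-w) = p := by
    rw [Finset.sum_image (fun x _ y _ hxy => neg_injective hxy)]
    simp only [neg_neg]
    exact hfs
  obtain ⟨q, h2, h3, h4, h5, -⟩ := exists_orthogonal (A := Cor C X) (triG h X n)
    (f.support.image (fun i => -i)) p (fun w => f (-w)) hpm hpp (fun w _ => hf (-w)) hFs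
  have h2' : ∀ i : ℤ, (q (-i) : C.A (X.prod X)) ∈ wtG 𝒩 X n i := by
    intro i
    have := h2 (-i)
    rwa [neg_neg] at this
  have hsupp : {i | q (-i) ≠ 0} ⊆ ((f.support : Finset ℤ) : Set ℤ) := by
    intro i hi
    by_contra hcon
    apply hi
    apply h3
    rw [Finset.mem_image]
    rintro ⟨j, hj, hji⟩
    obtain rfl : j = i := neg_injective hji
    exact hcon hj
  have hsum' : ∑ i ∈ f.support, q (-i) = p := by
    rw [← h5, Finset.sum_image (fun x _ y _ hxy => neg_injective hxy)]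
  have hsum : finsum (fun i => q (-i)) = p :=
    (finsum_eq_sum_of_support_subset (s := f.support) _ hsupp).trans hsum'
  suffices hck : IsMotiveCK (X := X) H p n (fun i => q (-i)) from ⟨fun i => q (-i), hck, h2'⟩
  refine ⟨f.support.finite_toSet.subset hsupp, fun i => wtG_mem h (h2' i),
    fun i => ?_, fun i j hij => ?_, hsum, fun i a ha => ?_, fun i j a hj ha => ?_⟩
  · have h6 := h4 (-i) (-i)
    rw [if_pos rfl] at h6
    exact h6
  · have h6 := h4 (-j) (-i)
    rw [if_neg (by omega)] at h6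
    exact h6
  · have h6 : H.act (X := X) (Y := X) (H.cl (X := X.prod X) p) a =
        ∑ j ∈ f.support, H.act (X := X) (Y := X) (H.cl (X := X.prod X) (q (-j))) a := by
      have h7 : actH C X H p a = ∑ j ∈ f.support, actH C X H (q (-j)) a := by
        have h8 : (p : Cor C X) = ∑ j ∈ f.support, q (-j) := hsum'.symm
        rw [h8, map_sum, LinearMap.sum_apply]
      exact h7
    change H.act (X := X) (Y := X) (H.cl (X := X.prod X) (q (-i))) a =
      H.act (X := X) (Y := X) (H.cl (X := X.prod X) p) a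
    rw [h6]
    symm
    apply Finset.sum_eq_single i
    · intro j _ hj
      exact wtG_actH h (h2' j) ha (by omega)
    · intro h7
      have h8 : (q (-i) : C.A (X.prod X)) = 0 := by
        by_contra h9
        exact h7 (hsupp h9)
      rw [h8]
      exact actH_zero H a
  · exact wtG_actH h (h2' i) ha hj

end Pool.Agent.V5helper93.Murre
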