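import Pool.Agent.V5helper93.Murre.SurfFam
import Pool.Agent.X308.S.Good
import Pool.Agent.X308.S.TriMain

/-!
# The main theorem on tame families
-/

set_option autoImplicit false

open CategoryTheory AlgebraicGeometry

universe u v w

namespace Pool.Agent.V5helper93.Murre

open Pool.Agent.H914 Pool.Agent.H914.VarClass Pool.Agent.H914.VarClass.Obj Pool.Agent.W492.BB
  Pool.Agent.W550.Corr Pool.Agent.TH133 Pool.Agent.X308.S

variable {k : Type u} [Field k] {𝒱 : VarClass k} {C : TheoryData.{u, v, 0} 𝒱 ℚ}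
  [hC : IsChowProj C] {K : Type w} [Field K]
  {H : WeilTheoryData.{u, v, w} C K} [hH : IsWeilProj H]

include hC hH

/-- The pieces of the members of a tame family. -/
theorem tfae_tame {𝒩 : Set (MotCK C)} (h : IsTame H 𝒩) {M : MotCK C} (hM : M ∈ 𝒩) :
    List.TFAE [∀ ν, StepC H M.p M.n ν, StepC H M.p M.n 0,
      ∀ π, IsMotiveCK H M.p M.n π → MotiveB C M.n π,
      ∀ π, IsMotiveCK H M.p M.n π → MotiveD H M.n π,
      NoPhantomCycles H M.p, ∀ i, NoPhantomCycles H (M.π i)] := by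
  have hT : NoLowering C M.π := by
    intro γ hγ a b hab
    refine h.low M hM M hM γ ?_ a b hab
    rwa [show (M.X.dim : ℤ) + M.n - M.n = M.X.dim by ring]
  have h0 := tfae_motive (C := C) (X := M.X) (h.ck M hM) hT (h.B M hM) (h.D M hM)
  have h1 : (∀ ν, StepC H M.p M.n ν) ↔ MotiveC H M.p M.n :=
    ⟨fun h1 π π' hπ hπ' l ν => (stepC_iff (C := C) (X := M.X) ν).1 (h1 ν) π π' hπ hπ' l,
      fun h1 ν => (stepC_iff (C := C) (X := M.X) ν).2 fun π π' hπ hπ' l => h1 π π' hπ hπ' l ν⟩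
  have h2 : StepC H M.p M.n 0 ↔ MotiveCZero H M.p M.n := stepC_iff (C := C) (X := M.X) 0
  rw [h1, h2]
  exact h0

theorem generate {𝒩 : Set (MotCK C)} (h : IsTame H 𝒩) :
    ∃ 𝒩' : Set (MotCK C), 𝒩 ⊆ 𝒩' ∧ IsTame H 𝒩' ∧
      ∀ (X : 𝒱.Obj) (p : C.A (X.prod X)) (n : ℤ), C.comp p p = p → p ∈ through 𝒩 X n →
        ∃ π, (⟨X, p, n, π⟩ : MotCK C) ∈ 𝒩' :=
  ⟨genFam H 𝒩, le_genFam h, genFam_tame h, fun _ _ _ hpp hp => exists_genFam h hpp hp⟩

omit hH in
theorem throughSurfaces_le (hS : SurfaceProperties H) (X : 𝒱.Obj) (n : ℤ) :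
    throughSurfaces C X ≤ through (surfaces H) X n := by
  unfold throughSurfaces
  rw [Submodule.span_le]
  rintro _ ⟨S, m, a, b, hS2, ha, hb, rfl⟩
  obtain ⟨π, hπ, -⟩ := hS.murre S hS2
  refine Submodule.subset_span ⟨_, ⟨S, π, X.dim + n - 2 - m, hπ, rfl⟩, a, b, ?_, ?_, ?_⟩
  · have h1 : a ∈ C.gr (X.prod S) ((X.dim : ℤ) - m) := ha
    have h2 : a ∈ C.gr (X.prod S) ((S.dim : ℤ) + (X.dim + n - 2 - m) - n) := by
      rw [hS2]
      push_cast
      rwa [show (2 : ℤ) + (X.dim + n - 2 - m) - n = X.dim - m by ring]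
    exact h2
  · have h1 : b ∈ C.gr (S.prod X) (2 + m) := hb
    have h2 : b ∈ C.gr (S.prod X) ((X.dim : ℤ) + n - (X.dim + n - 2 - m)) := by
      rwa [show (X.dim : ℤ) + n - (X.dim + n - 2 - m) = 2 + m by ring]
    exact h2
  · rw [comp_dg]

theorem varietyC_iff (X : 𝒱.Obj) : VarietyC H X ↔ MurreC H X := by
  have key : ∀ (π : ℕ → C.A (X.prod X)), IsCK H X π → ∀ (i n : ℕ) (z : C.A X),
      z ∈ ckFil C π i n ↔ z ∈ C.gr X i ∧ ∀ j, 2 * i < j + n → C.act (π j) z = 0 := by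
    intro π hπ i n z
    rw [hπ.mem_ckFil]
    constructor
    · rintro ⟨h1, h2⟩
      exact ⟨h1, fun j hj => h2 j (by omega)⟩
    · rintro ⟨h1, h2⟩
      exact ⟨h1, fun j hj => h2 j (by omega)⟩
  constructor
  · intro h π π' hπ hπ' i n
    ext z
    rw [key π hπ, key π' hπ']
    constructor
    · rintro ⟨h1, h2⟩
      exact ⟨h1, (h π π' hπ hπ' i n z h1).1 h2⟩
    · rintro ⟨h1, h2⟩
      exact ⟨h1, (h π π' hπ hπ' i n z h1).2 h2⟩
  · intro h π π' hπ hπ' i n z hz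
    have h2 : z ∈ ckFil C π i n ↔ z ∈ ckFil C π' i n := by rw [h π π' hπ hπ' i n]
    rw [key π hπ, key π' hπ'] at h2
    constructor
    · intro h3
      exact (h2.1 ⟨hz, h3⟩).2
    · intro h3
      exact (h2.2 ⟨hz, h3⟩).2

omit hH in
theorem le_throughSurfaces (X : 𝒱.Obj) (n : ℤ) :
    through (surfaces H) X n ≤ throughSurfaces C X := by
  unfold through
  rw [Submodule.span_le]
  rintro _ ⟨_, ⟨S, π, m, hπ, rfl⟩, a, b, ha, hb, rfl⟩
  have hd := hπ.dim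
  have ha' : a ∈ C.gr (X.prod S) ((S.dim : ℤ) + m - n) := ha
  have hb' : b ∈ C.gr (S.prod X) ((X.dim : ℤ) + n - m) := hb
  rw [hd] at ha'
  push_cast at ha'
  refine Submodule.subset_span ⟨S, X.dim + n - 2 - m, a, b, hd, ?_, ?_, ?_⟩
  · change a ∈ C.gr (X.prod S) ((X.dim : ℤ) - (X.dim + n - 2 - m))
    rwa [show (X.dim : ℤ) - (X.dim + n - 2 - m) = 2 + m - n by ring]
  · change b ∈ C.gr (S.prod X) ((2 : ℤ) + (X.dim + n - 2 - m))
    rwa [show (2 : ℤ) + (X.dim + n - 2 - m) = X.dim + n - m by ring]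
  · change C.comp (C.comp a (dg C S)) b = C.comp a b
    rw [comp_dg]

theorem varieties (hS : SurfaceProperties H) (X : 𝒱.Obj)
    (hX0 : dg C X ∈ through (surfaces H) X 0) :
    List.TFAE [VarietyC H X, ∀ ν, StepC H (dg C X) 0 ν, NoPhantomCycles H (dg C X)] := by
  have hX := le_throughSurfaces X 0 hX0
  obtain ⟨P, h1, -, h3⟩ := exists_selfDual_CK hS hX
  have h := tfae_murre h1 (noRaising_of_wt hS h3) (B0_of_wt h1 h3) (B1_of_wt hS h1 h3)
    (D_of_wt hS h1 h3)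
  have h5 : MurreC H X ↔ PhantomsActTrivially H X := h.out 2 4
  have h6 : PhantomsActTrivially H X ↔ NoPhantomCycles H (dg C X) := by
    constructor
    · intro h7 e he hee _ _ hcl x
      exact h7 e he hee hcl x
    · intro h7 e he hee hcl x
      exact h7 e he hee (by rw [dg_comp]) (by rw [comp_dg]) hcl x
  obtain ⟨𝒩', -, hT, hex⟩ := generate (surfaces_tame hS)
  obtain ⟨π, hπ⟩ := hex X (dg C X) 0 (by rw [dg_comp]) hX0
  have h8 : (∀ ν, StepC H (dg C X) 0 ν) ↔ NoPhantomCycles H (dg C X) := (tfae_tame hT hπ).out 0 4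
  tfae_have 1 ↔ 3 := (varietyC_iff X).trans (h5.trans h6)
  tfae_have 2 ↔ 3 := h8
  tfae_finish

end Pool.Agent.V5helper93.Murre
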