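import Pool.Agent.V5helper93.Murre.FamDefs

/-!
# The filtration of a motive
-/

set_option autoImplicit false

universe u v w

namespace Pool.Agent.V5helper93.Murre

open Pool.Agent.H914 Pool.Agent.H914.VarClass Pool.Agent.H914.VarClass.Obj Pool.Agent.W492.BB
  Pool.Agent.W550.Corr Pool.Agent.TH133 Pool.Agent.X308.S

variable {k : Type u} [Field k] {𝒱 : VarClass k} {C : TheoryData.{u, v, 0} 𝒱 ℚ} {K : Type w}
  [Field K] (H : WeilTheoryData.{u, v, w} C K) {X : 𝒱.Obj}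

/-- There are no morphisms `M_a → M_b` different from zero with `b < a`, where `M_i = (X, π i, n)`. -/
def NoLowering (C : TheoryData.{u, v, 0} 𝒱 ℚ) {X : 𝒱.Obj} (π : ℤ → C.A (X.prod X)) : Prop :=
  ∀ γ : C.A (X.prod X), C.Deg X.dim γ → ∀ a b : ℤ, b < a → C.comp (C.comp (π a) γ) (π b) = 0

/-- The filtration `F^ν CH_l(M) = ⊕_(i ≥ 2 l + ν) CH_l(M_i)` for the decomposition `M = ⊕ M_i`,
`M_i = (X, π i, n)`, where `CH_l(M_i) = (π i)_* CH_(l - n)(X)`. -/
noncomputable def motiveFil (C : TheoryData.{u, v, 0} 𝒱 ℚ) {X : 𝒱.Obj} (n : ℤ)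
    (π : ℤ → C.A (X.prod X)) (l ν : ℤ) : Submodule ℚ (C.A X) :=
  ⨆ i : {i : ℤ // 2 * l + ν ≤ i}, (C.gr X ((X.dim : ℤ) - (l - n))).map (C.actL (π i.1))

/-- Murre's conjecture (C) for the motive `M = (X, p, n)`: the filtration does not depend on the
Chow-Kunneth decomposition. -/
def MotiveC (p : C.A (X.prod X)) (n : ℤ) : Prop :=
  ∀ π π', IsMotiveCK H p n π → IsMotiveCK H p n π' → ∀ l ν : ℤ,
    motiveFil C n π l ν = motiveFil C n π' l ν

/-- The part of Murre's conjecture (C) for `M = (X, p, n)` concerning the step `F^0` only. -/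
def MotiveCZero (p : C.A (X.prod X)) (n : ℤ) : Prop :=
  ∀ π π', IsMotiveCK H p n π → IsMotiveCK H p n π' → ∀ l : ℤ,
    motiveFil C n π l 0 = motiveFil C n π' l 0

end Pool.Agent.V5helper93.Murre
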