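import Pool.Agent.V5helper93.Murre.MotDefs
import Pool.Agent.X308.S.TriMain
import Pool.Agent.X308.S.CK

/-!
# Murre's conjectures for all decompositions of a motive, and phantoms: proofs
-/

set_option autoImplicit false

open CategoryTheory AlgebraicGeometry

universe u v w

namespace Pool.Agent.V5helper93.Murre

open Pool.Agent.H914 Pool.Agent.H914.VarClass Pool.Agent.H914.VarClass.Obj Pool.Agent.W492.BB
  Pool.Agent.W550.Corr Pool.Agent.TH133 Pool.Agent.X308.S

set_option linter.unusedSectionVars false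

variable {k : Type u} [Field k] {𝒱 : VarClass k} {C : TheoryData.{u, v, 0} 𝒱 ℚ}
  [hC : IsChowProj C] {K : Type w} [Field K]
  {H : WeilTheoryData.{u, v, w} C K} [hH : IsWeilProj H] {X : 𝒱.Obj}

/-- A decomposition of the idempotent `p` into orthogonal idempotents of degree zero, in the ring of
correspondences. -/
structure Dec (p : Cor C X) (P : ℤ → Cor C X) (s : Finset ℤ) : Prop where
  out : ∀ i, i ∉ s → P i = 0
  mem : ∀ i, P i ∈ cor0 C X
  mul : ∀ i j, P i * P j = if i = j then P i else 0
  sum : ∑ i ∈ s, P i = p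

section dec

variable {p : Cor C X} {P P' : ℤ → Cor C X} {s s' : Finset ℤ}

lemma Dec.mul_p (h : Dec p P s) (i : ℤ) : P i * p = P i := by
  rw [← h.sum, Finset.mul_sum]
  by_cases hi : i ∈ s
  · rw [Finset.sum_eq_single i (fun j _ hj => by rw [h.mul, if_neg (Ne.symm hj)])
      (fun h1 => absurd hi h1), h.mul, if_pos rfl]
  · rw [h.out i hi]
    exact Finset.sum_eq_zero fun j _ => zero_mul _

lemma Dec.p_mul (h : Dec p P s) (i : ℤ) : p * P i = P i := by
  rw [← h.sum, Finset.sum_mul]
  by_cases hi : i ∈ s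
  · rw [Finset.sum_eq_single i (fun j _ hj => by rw [h.mul, if_neg hj])
      (fun h1 => absurd hi h1), h.mul, if_pos rfl]
  · rw [h.out i hi]
    exact Finset.sum_eq_zero fun j _ => mul_zero _

lemma act_mul (a b : Cor C X) (z : C.A X) :
    actC C X (a * b) z = actC C X a (actC C X b z) := by
  rw [map_mul]
  rfl

lemma Dec.act_P (h : Dec p P s) (i j : ℤ) (z : C.A X) :
    actC C X (P i) (actC C X (P j) z) = if i = j then actC C X (P i) z else 0 := by
  rw [← act_mul, h.mul]
  split_ifs
  · rfl
  · rw [map_zero, LinearMap.zero_apply]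

lemma Dec.expand (h : Dec p P s) {z : C.A X} (hz : actC C X p z = z) (γ : Cor C X) :
    actC C X γ z = ∑ a ∈ s, actC C X (γ * P a) z := by
  have h1 : γ * p = ∑ a ∈ s, γ * P a := by rw [← Finset.mul_sum, h.sum]
  conv_lhs => rw [← hz, ← act_mul, h1, map_sum, LinearMap.sum_apply]

lemma Dec.sum_act (h : Dec p P s) {z : C.A X} (hz : actC C X p z = z) :
    z = ∑ a ∈ s, actC C X (P a) z := by
  conv_lhs => rw [← hz, ← h.sum, map_sum, LinearMap.sum_apply]

/-- No morphisms to smaller weights. -/
def NoLow (P : ℤ → Cor C X) : Prop :=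
  ∀ γ ∈ cor0 C X, ∀ a b : ℤ, b < a → P b * (γ * P a) = 0

/-- The lowest component of a class: if `z` has no components of weight `< a` then
`P a γ z = (P a γ P a) z`. -/
lemma lowest (h : Dec p P s) (hT : NoLow P) {z : C.A X} (hz : actC C X p z = z) {γ : Cor C X}
    (hγ : γ ∈ cor0 C X) {a : ℤ} (ha : ∀ c, c < a → actC C X (P c) z = 0) :
    actC C X (P a * γ) z = actC C X (P a * (γ * P a)) z := by
  rw [h.expand hz]
  have h1 : ∀ c ∈ s, c ≠ a → actC C X (P a * γ * P c) z = 0 := by
    intro c _ hc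
    rcases lt_or_gt_of_ne hc with h4 | h4
    · rw [act_mul, ha c h4, map_zero]
    · rw [mul_assoc, hT γ hγ c a h4, map_zero, LinearMap.zero_apply]
  by_cases has : a ∈ s
  · rw [Finset.sum_eq_single a h1 (fun h2 => absurd has h2), mul_assoc]
  · rw [h.out a has]
    rw [zero_mul, zero_mul, map_zero, LinearMap.zero_apply]
    exact Finset.sum_eq_zero fun c _ => by rw [zero_mul, map_zero, LinearMap.zero_apply]

/-- Induction on the weights from below. -/
lemma all_zero (h : Dec p P s) {z : C.A X} {t : ℤ}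
    (h1 : ∀ a, a < t → (∀ c, c < a → actC C X (P c) z = 0) → actC C X (P a) z = 0) :
    ∀ a, a < t → actC C X (P a) z = 0 := by
  by_contra hcon
  push Not at hcon
  classical
  obtain ⟨a0, ha0, hne0⟩ := hcon
  let S : Finset ℤ := s.filter (fun a => a < t ∧ actC C X (P a) z ≠ 0)
  have hmem : ∀ a, a < t → actC C X (P a) z ≠ 0 → a ∈ S := by
    intro a ha hne
    refine Finset.mem_filter.2 ⟨?_, ha, hne⟩
    by_contra h2
    apply hne
    rw [h.out a h2, map_zero, LinearMap.zero_apply]
  have hS : S.Nonempty := ⟨a0, hmem a0 ha0 hne0⟩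
  obtain ⟨ha1, ha2⟩ := (Finset.mem_filter.1 (S.min'_mem hS)).2
  refine ha2 (h1 _ ha1 fun c hc => ?_)
  by_contra h2
  exact absurd (S.min'_le c (hmem c (hc.trans ha1) h2)) (not_le.2 hc)

/-- The diagonal entries of an idempotent are idempotent. -/
lemma diag_idem (h : Dec p P s) (hT : NoLow P) {e : Cor C X} (he : e ∈ cor0 C X)
    (hee : e * e = e) (hep : e * p = e) (a : ℤ) :
    (P a * (e * P a)) * (P a * (e * P a)) = P a * (e * P a) := by
  have h1 : P a * (e * P a) = ∑ c ∈ s, P a * (e * P c) * (e * P a) := by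
    have h2 : P a * (e * P a) = P a * (e * p) * (e * P a) := by
      rw [hep, mul_assoc (P a) e, ← mul_assoc e e, hee]
    rw [h2, ← h.sum, Finset.mul_sum, Finset.mul_sum, Finset.sum_mul]
  have h3 : ∀ c ∈ s, c ≠ a → P a * (e * P c) * (e * P a) = 0 := by
    intro c _ hc
    rcases lt_or_gt_of_ne hc with h4 | h4
    · have h5 : P a * (e * P c) * (e * P a) = P a * e * (P c * (e * P a)) := by
        simp only [mul_assoc]
      rw [h5, hT e he a c h4, mul_zero]
    · rw [hT e he c a h4, zero_mul]
  have h6 : P a * (e * P a) * (P a * (e * P a)) = P a * (e * P a) * (e * P a) := by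
    have h7 : P a * (e * P a) * (P a * (e * P a)) = P a * (e * (P a * P a)) * (e * P a) := by
      simp only [mul_assoc]
    rw [h7, h.mul, if_pos rfl]
  rw [h6]
  by_cases has : a ∈ s
  · rw [Finset.sum_eq_single a h3 (fun h2 => absurd has h2)] at h1
    exact h1.symm
  · rw [h.out a has]
    simp only [mul_zero]

end dec

section fil

variable {p : Cor C X} {P P' : ℤ → Cor C X} {s s' : Finset ℤ}

/-- If the off-diagonal entries act trivially, the filtrations agree: first half. -/
lemma fil_le (h : Dec p P s) (hT : NoLow P) (h' : Dec p P' s')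
    (hent : ∀ a b, a ≠ b → ∀ z, actC C X (P a * (P' b * P a)) z = 0) {x : C.A X}
    (hx : actC C X p x = x) {t : ℤ} (h1 : ∀ i, i < t → actC C X (P i) x = 0) :
    ∀ b, b < t → actC C X (P' b) x = 0 := by
  intro b hb
  set y := actC C X (P' b) x with hy
  have hpy : actC C X p y = y := by rw [hy, ← act_mul, h'.p_mul]
  have hyy : actC C X (P' b) y = y := by rw [hy, h'.act_P, if_pos rfl]
  have hlow : ∀ c, c < t → actC C X (P c) y = 0 := by
    intro c hc
    rw [hy, ← act_mul, h.expand hx]
    refine Finset.sum_eq_zero fun a _ => ?_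
    by_cases ha : a < t
    · rw [act_mul, h1 a ha, map_zero]
    · rw [mul_assoc, hT _ (h'.mem b) a c (by omega), map_zero, LinearMap.zero_apply]
  have hall : ∀ u, ∀ c, c < u → actC C X (P c) y = 0 := by
    intro u
    refine all_zero h fun a _ ha => ?_
    by_cases hat : a < t
    · exact hlow a hat
    · have h2 : actC C X (P a) y = actC C X (P a * P' b) y := by rw [act_mul, hyy]
      rw [h2, lowest h hT hpy (h'.mem b) ha, hent a b (by omega)]
  rw [h.sum_act hpy]
  exact Finset.sum_eq_zero fun a _ => hall (a + 1) a (lt_add_one a)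

/-- If the off-diagonal entries act trivially, the filtrations agree: second half. -/
lemma le_fil (h : Dec p P s) (hT : NoLow P) (h' : Dec p P' s')
    (hent : ∀ a b, a ≠ b → ∀ z, actC C X (P a * (P' b * P a)) z = 0) {x : C.A X}
    (hx : actC C X p x = x) {t : ℤ} (h1 : ∀ i, i < t → actC C X (P' i) x = 0) :
    ∀ b, b < t → actC C X (P b) x = 0 := by
  refine all_zero h fun a ha1 ha => ?_
  have h2 : actC C X (P a) x = ∑ b ∈ s', actC C X (P a * P' b) x := h'.expand hx (P a)
  rw [h2]
  refine Finset.sum_eq_zero fun b _ => ?_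
  by_cases hb : b < t
  · rw [act_mul, h1 b hb, map_zero]
  · rw [lowest h hT hx (h'.mem b) ha, hent a b (by omega)]

/-- A nontrivial phantom has a nontrivial diagonal entry. -/
lemma exists_diag (h : Dec p P s) (hT : NoLow P) {e : Cor C X} (he : e ∈ cor0 C X)
    (hee : e * e = e) (hpe : p * e = e) {l : ℤ} {x : C.A X} (hx : x ∈ C.gr X l)
    (hne : actC C X e x ≠ 0) :
    ∃ (a : ℤ) (y : C.A X), y ∈ C.gr X l ∧ y ≠ 0 ∧ actC C X (P a) y = y ∧
      actC C X (P a * (e * P a)) y = y := by
  set z := actC C X e x with hz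
  have hez : actC C X e z = z := by rw [hz, ← act_mul, hee]
  have hpz : actC C X p z = z := by rw [hz, ← act_mul, hpe]
  have hzm : z ∈ C.gr X l := act_mem0 C he hx
  obtain ⟨a, ha1, ha2⟩ : ∃ a, actC C X (P a) z ≠ 0 ∧ ∀ c, c < a → actC C X (P c) z = 0 := by
    by_contra hcon
    push Not at hcon
    apply hne
    have hall : ∀ u, ∀ c, c < u → actC C X (P c) z = 0 := by
      intro u
      refine all_zero h fun a _ ha => ?_
      by_contra h2
      obtain ⟨c, hc1, hc2⟩ := hcon a h2
      exact hc2 (ha c hc1)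
    rw [h.sum_act hpz]
    exact Finset.sum_eq_zero fun a _ => hall (a + 1) a (lt_add_one a)
  have hPP : actC C X (P a) (actC C X (P a) z) = actC C X (P a) z := by
    rw [h.act_P, if_pos rfl]
  refine ⟨a, actC C X (P a) z, act_mem0 C (h.mem a) hzm, ha1, hPP, ?_⟩
  have h2 : actC C X (P a) z = actC C X (P a * e) z := by rw [act_mul, hez]
  have h3 : actC C X (P a * (e * P a)) (actC C X (P a) z) = actC C X (P a * (e * P a)) z := by
    rw [← act_mul]
    have h4 : P a * (e * P a) * P a = P a * (e * P a) := by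
      have h5 : P a * (e * P a) * P a = P a * (e * (P a * P a)) := by simp only [mul_assoc]
      rw [h5, h.mul, if_pos rfl]
    rw [h4]
  rw [h3, ← lowest h hT hpz he ha2, ← h2]

end fil

/-! ### Chow-Kunneth decompositions of motives -/

section motive

variable {p : Cor C X} {n : ℤ} {π π' P : ℤ → Cor C X}

lemma dec_of (h : IsMotiveCK (X := X) H p n π) : Dec p π h.finite.toFinset where
  out i hi := by
    by_contra hne
    exact hi (h.finite.mem_toFinset.2 hne)
  mem i := h.deg i
  mul i j := by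
    split_ifs with hij
    · subst hij
      exact h.idem i
    · exact h.orth j i (Ne.symm hij)
  sum := by
    have h1 : finsum (fun i => π i) = ∑ i ∈ h.finite.toFinset, π i :=
      finsum_eq_sum_of_support_subset _ (by
        intro i hi
        exact h.finite.mem_toFinset.2 hi)
    exact h1.symm.trans h.sum

lemma noLow_of (hT : NoLowering (X := X) C P) : NoLow P :=
  fun γ hγ a b hab => hT γ hγ a b hab

/-- The membership in the filtration. -/
lemma mem_motiveFil (h : IsMotiveCK (X := X) H p n π) (l ν : ℤ) (z : C.A X) :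
    z ∈ motiveFil (X := X) C n π l ν ↔ z ∈ C.gr X ((X.dim : ℤ) - (l - n)) ∧
      actC C X p z = z ∧ ∀ i : ℤ, i < 2 * l + ν → actC C X (π i) z = 0 := by
  have hd := dec_of h
  constructor
  · intro hz
    let S : Submodule ℚ (C.A X) := C.gr X ((X.dim : ℤ) - (l - n)) ⊓
      LinearMap.ker (actC C X p - 1) ⊓
      ⨅ i : {i : ℤ // i < 2 * l + ν}, LinearMap.ker (actC C X (π i.1))
    have h1 : motiveFil (X := X) C n π l ν ≤ S := by
      unfold motiveFil
      refine iSup_le fun i => ?_
      rintro _ ⟨w, hw, rfl⟩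
      have h2 : C.actL (X := X) (Y := X) (π i.1) w = actC C X (π i.1) w := rfl
      rw [h2]
      refine ⟨⟨act_mem0 C (h.deg i.1) hw, ?_⟩, ?_⟩
      · have h5 : (actC C X p - 1) (actC C X (π i.1) w) = 0 := by
          rw [LinearMap.sub_apply, ← act_mul, hd.p_mul i.1]
          exact sub_self _
        exact h5
      · refine Submodule.mem_iInf _ |>.2 ?_
        intro j
        have h3 := hd.act_P j.1 i.1 w
        rw [if_neg (by have := i.2; have := j.2; omega)] at h3
        exact h3
    obtain ⟨⟨h2, h3⟩, h4⟩ := h1 hz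
    have h3' : actC C X p z - z = 0 := h3
    have h4' := (Submodule.mem_iInf _).1 h4
    exact ⟨h2, sub_eq_zero.1 h3', fun i hi => h4' ⟨i, hi⟩⟩
  · rintro ⟨h1, h2, h3⟩
    rw [hd.sum_act h2]
    refine Submodule.sum_mem _ fun i _ => ?_
    by_cases hi : i < 2 * l + ν
    · have h4 := h3 i hi
      rw [h4]
      exact Submodule.zero_mem _
    · exact Submodule.mem_iSup_of_mem ⟨i, not_lt.1 hi⟩ ⟨z, h1, rfl⟩

/-- The off-diagonal entries of a decomposition with respect to another one are homologically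
trivial. -/
lemma entry_cl_zero (h : IsMotiveCK (X := X) H p n P) (h' : IsMotiveCK (X := X) H p n π)
    {a b : ℤ} (hab : a ≠ b) : H.cl (X := X.prod X) (P a * (π b * P a)) = 0 := by
  apply actH_ext
  intro m x hx
  have h1 : actH C X H (π b * P a) x = 0 := by
    rw [map_mul, Module.End.mul_apply]
    by_cases hm : m = 2 * X.dim - (a - 2 * n)
    · have h2 : actH C X H (P a) x = actH C X H p x := h.act_self a x (hm ▸ hx)
      have h3 : actH C X H (π b) (actH C X H p x) = actH C X H (π b) x := by
        rw [← Module.End.mul_apply, ← map_mul, (dec_of h').mul_p b]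
      rw [h2, h3]
      exact h'.act_ne b m x (by omega) hx
    · have h2 : actH C X H (P a) x = 0 := h.act_ne a m x hm hx
      rw [h2, map_zero]
  rw [map_mul, Module.End.mul_apply, h1, map_zero]

/-- If phantoms have trivial Chow groups then the filtration is independent. -/
lemma indep_of_phantoms (h : IsMotiveCK (X := X) H p n P) (hT : NoLowering (X := X) C P)
    (hp : NoPhantomCycles (X := X) H p) (h' : IsMotiveCK (X := X) H p n π) (l ν : ℤ) :
    motiveFil (X := X) C n P l ν = motiveFil (X := X) C n π l ν := by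
  have hd := dec_of h
  have hd' := dec_of h'
  have hT' := noLow_of hT
  have hent : ∀ a b : ℤ, a ≠ b → ∀ z : C.A X, actC C X (P a * (π b * P a)) z = 0 := by
    intro a b hab z
    have hb : π b * π b = π b := h'.idem b
    have hi := diag_idem hd hT' (hd'.mem b) hb (hd'.mul_p b) a
    refine hp (P a * (π b * P a))
      ((cor0 C X).mul_mem (hd.mem a) ((cor0 C X).mul_mem (hd'.mem b) (hd.mem a))) hi ?_ ?_
      (entry_cl_zero h h' hab) z
    · have h2 : P a * (π b * P a) * p = P a * (π b * P a) := by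
        rw [mul_assoc, mul_assoc, hd.mul_p a]
      exact h2
    · have h2 : p * (P a * (π b * P a)) = P a * (π b * P a) := by
        rw [← mul_assoc, hd.p_mul a]
      exact h2
  ext z
  rw [mem_motiveFil h, mem_motiveFil h']
  constructor
  · rintro ⟨h1, h2, h3⟩
    exact ⟨h1, h2, fil_le hd hT' hd' hent h2 h3⟩
  · rintro ⟨h1, h2, h3⟩
    exact ⟨h1, h2, le_fil hd hT' hd' hent h2 h3⟩

/-- The phantom `f` of weight `a` is moved to the weight `j`. -/
noncomputable def mvZ (P : ℤ → Cor C X) (f : Cor C X) (a j : ℤ) : ℤ → Cor C X :=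
  fun i => if i = a then P a - f else if i = j then P j + f else P i

lemma mvZ_self (P : ℤ → Cor C X) (f : Cor C X) (a j : ℤ) : mvZ P f a j a = P a - f := if_pos rfl

lemma mvZ_to (P : ℤ → Cor C X) (f : Cor C X) {a j : ℤ} (haj : j ≠ a) :
    mvZ P f a j j = P j + f := by
  unfold mvZ
  rw [if_neg haj, if_pos rfl]

lemma mvZ_ne (P : ℤ → Cor C X) (f : Cor C X) {a j i : ℤ} (h1 : i ≠ a) (h2 : i ≠ j) :
    mvZ P f a j i = P i := by
  unfold mvZ
  rw [if_neg h1, if_neg h2]

/-- Moving a phantom gives a Chow-Kunneth decomposition. -/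
lemma move_ck (h : IsMotiveCK (X := X) H p n P) {f : Cor C X} (hf : f ∈ cor0 C X)
    (hff : f * f = f) (hcl : H.cl (X := X.prod X) f = 0) {a j : ℤ} (haj : j ≠ a)
    (hPf : P a * f = f) (hfP : f * P a = f) :
    IsMotiveCK (X := X) H p n (mvZ P f a j) := by
  have hd := dec_of h
  have hPf' : ∀ i, i ≠ a → P i * f = 0 := by
    intro i hi
    have h1 := hd.mul i a
    rw [if_neg hi] at h1
    rw [← hPf, ← mul_assoc, h1, zero_mul]
  have hfP' : ∀ i, i ≠ a → f * P i = 0 := by
    intro i hi
    have h1 := hd.mul a i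
    rw [if_neg (Ne.symm hi)] at h1
    rw [← hfP, mul_assoc, h1, mul_zero]
  have hPP : ∀ i, P i * P i = P i := fun i => h.idem i
  have hPn : ∀ i j, i ≠ j → P i * P j = 0 := fun i j hij => h.orth j i (Ne.symm hij)
  obtain ⟨Q, hQ⟩ : ∃ Q : ℤ → Cor C X, Q = mvZ P f a j := ⟨_, rfl⟩
  rw [← hQ]
  have Qa : Q a = P a - f := by rw [hQ, mvZ_self]
  have Qj : Q j = P j + f := by rw [hQ, mvZ_to P f haj]
  have Qn : ∀ i, i ≠ a → i ≠ j → Q i = P i := fun i h1 h2 => by rw [hQ, mvZ_ne P f h1 h2]
  have hact0 : actH C X H f = 0 := actH_of_cl hcl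
  have hQH : ∀ i, actH C X H (Q i) = actH C X H (P i) := by
    intro i
    by_cases h1 : i = a
    · rw [h1, Qa, map_sub, hact0, sub_zero]
    · by_cases h2 : i = j
      · rw [h2, Qj, map_add, hact0, add_zero]
      · rw [Qn i h1 h2]
  have hfin : {i | Q i ≠ 0} ⊆ ((h.finite.toFinset ∪ {a, j} : Finset ℤ) : Set ℤ) := by
    intro i hi
    by_contra hcon
    rw [Finset.mem_coe, Finset.mem_union, not_or, Finset.mem_insert, Finset.mem_singleton,
      not_or] at hcon
    apply hi
    rw [Qn i hcon.2.1 hcon.2.2]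
    exact hd.out i hcon.1
  have hdeg : ∀ i, Q i ∈ cor0 C X := by
    intro i
    by_cases h1 : i = a
    · rw [h1, Qa]; exact (cor0 C X).sub_mem (hd.mem a) hf
    · by_cases h2 : i = j
      · rw [h2, Qj]; exact (cor0 C X).add_mem (hd.mem j) hf
      · rw [Qn i h1 h2]; exact hd.mem i
  have hidem : ∀ i, Q i * Q i = Q i := by
    intro i
    by_cases h1 : i = a
    · rw [h1, Qa, sub_mul, mul_sub, mul_sub, hPf, hfP, hff, hPP]
      abel
    · by_cases h2 : i = j
      · rw [h2, Qj, add_mul, mul_add, mul_add, hPf' j haj, hfP' j haj, hff, hPP]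
        abel
      · rw [Qn i h1 h2, hPP]
  have horth : ∀ i i', i ≠ i' → Q i' * Q i = 0 := by
    intro i i' hii
    by_cases h1 : i' = a
    · rw [h1, Qa]
      by_cases h3 : i = j
      · rw [h3, Qj, sub_mul, mul_add, mul_add, hPf, hff, hfP' j haj, hPn a j (Ne.symm haj)]
        abel
      · have h4 : i ≠ a := by rintro rfl; exact hii h1.symm
        rw [Qn i h4 h3, sub_mul, hfP' i h4, hPn a i (Ne.symm h4), sub_zero]
    · by_cases h1' : i' = j
      · rw [h1', Qj]
        by_cases h2 : i = a
        · rw [h2, Qa, add_mul, mul_sub, mul_sub, hfP, hff, hPf' j haj, hPn j a haj]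
          abel
        · have h4 : i ≠ j := by rintro rfl; exact hii h1'.symm
          rw [Qn i h2 h4, add_mul, hfP' i h2, hPn j i (Ne.symm h4), add_zero]
      · rw [Qn i' h1 h1']
        by_cases h2 : i = a
        · rw [h2, Qa, mul_sub, hPf' i' h1, hPn i' a h1, sub_zero]
        · by_cases h3 : i = j
          · rw [h3, Qj, mul_add, hPf' i' h1, hPn i' j h1', add_zero]
          · rw [Qn i h2 h3, hPn i' i (Ne.symm hii)]
  have hsum : finsum (fun i => Q i) = p := by
    have h1 : ∀ i, Q i = P i + ((if i = j then f else 0) - (if i = a then f else 0)) := by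
      intro i
      by_cases h1 : i = a
      · rw [h1, Qa, if_pos rfl, if_neg (Ne.symm haj)]
        abel
      · by_cases h2 : i = j
        · rw [h2, Qj, if_pos rfl, if_neg haj]
          abel
        · rw [Qn i h1 h2, if_neg h1, if_neg h2]
          abel
    have h2 : finsum (fun i => Q i) = ∑ i ∈ h.finite.toFinset ∪ {a, j}, Q i :=
      finsum_eq_sum_of_support_subset _ hfin
    have h3 : ∑ i ∈ h.finite.toFinset ∪ {a, j}, P i = p :=
      (Finset.sum_subset Finset.subset_union_left fun i _ hi => hd.out i hi).symm.trans hd.sum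
    rw [h2, Finset.sum_congr rfl (fun i _ => h1 i), Finset.sum_add_distrib,
        Finset.sum_sub_distrib, Finset.sum_ite_eq', Finset.sum_ite_eq',
        if_pos (Finset.mem_union_right _ (by simp)), if_pos (Finset.mem_union_right _ (by simp)),
        sub_self, add_zero, h3]
  refine ⟨(Finset.finite_toSet _).subset hfin, hdeg, hidem, horth, hsum,
    fun i x hx => ?_, fun i m x hm hx => ?_⟩
  · have h1 : actH C X H (Q i) x = actH C X H p x := by
      rw [hQH]
      exact h.act_self i x hx
    exact h1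
  · have h1 : actH C X H (Q i) x = 0 := by
      rw [hQH]
      exact h.act_ne i m x hm hx
    exact h1

/-- If there is a phantom with nontrivial Chow groups, then some phantom `f` of one weight `a` acts
as the identity on a cycle `y ≠ 0`. -/
lemma exists_cycle (h : IsMotiveCK (X := X) H p n P) (hT : NoLowering (X := X) C P)
    (hp : ¬ NoPhantomCycles (X := X) H p) :
    ∃ (l a : ℤ) (f : Cor C X) (y : C.A X), f ∈ cor0 C X ∧ f * f = f ∧
      H.cl (X := X.prod X) f = 0 ∧ P a * f = f ∧ f * P a = f ∧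
      y ∈ C.gr X ((X.dim : ℤ) - (l - n)) ∧ y ≠ 0 ∧ actC C X (P a) y = y ∧
      actC C X f y = y ∧ H.cl y = 0 := by
  have hd := dec_of h
  have hT' := noLow_of hT
  obtain ⟨e, he, hee, hep', hpe', hcl, x, hx⟩ : ∃ e : Cor C X, e ∈ cor0 C X ∧ e * e = e ∧
      e * p = e ∧ p * e = e ∧ H.cl (X := X.prod X) e = 0 ∧ ∃ x : C.A X, actC C X e x ≠ 0 := by
    by_contra hcon
    apply hp
    intro e he hee hpe hep hcl x
    by_contra hx
    exact hcon ⟨e, he, hee, hpe, hep, hcl, x, hx⟩
  obtain ⟨i, z, hz, hne⟩ : ∃ (i : ℤ) (z : C.A X), z ∈ C.gr X i ∧ actC C X e z ≠ 0 := by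
    by_contra hcon
    push Not at hcon
    apply hx
    have h2 : (⨆ i, C.gr X i) ≤ LinearMap.ker (actC C X e) :=
      iSup_le fun i z hz => hcon i z hz
    have h3 : x ∈ ⨆ i, C.gr X i := by
      rw [Pool.Agent.X308.Q.iSup_gr]
      trivial
    exact h2 h3
  obtain ⟨a, y, hy, hy0, hPy, hfy⟩ := exists_diag hd hT' he hee hpe' hz hne
  have hPP : P a * P a = P a := h.idem a
  have hacte : actH C X H e = 0 := actH_of_cl hcl
  have hclf : H.cl (X := X.prod X) (P a * (e * P a)) = 0 := by
    apply actH_ext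
    intro m x _
    rw [map_mul, map_mul, Module.End.mul_apply, Module.End.mul_apply, hacte,
      LinearMap.zero_apply, map_zero]
  refine ⟨X.dim - i + n, a, P a * (e * P a), y,
    (cor0 C X).mul_mem (hd.mem a) ((cor0 C X).mul_mem he (hd.mem a)),
    diag_idem hd hT' he hee hep' a, hclf, ?_, ?_, ?_, hy0, hPy, hfy, ?_⟩
  · rw [← mul_assoc, hPP]
  · simp only [mul_assoc, hPP]
  · have h4 : (X.dim : ℤ) - (X.dim - i + n - n) = i := by ring
    rw [h4]
    exact hy
  · rw [← hfy]
    exact cl_act_zero hclf y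

/-- If a phantom of weight `a` acts as the identity on `y` and is moved to `j`, then `y` is a class
of weight `j`. -/
lemma move_act_self {s : Finset ℤ} (hd : Dec p P s) {f : Cor C X} {a j : ℤ} {y : C.A X}
    (haj : j ≠ a) (hPy : actC C X (P a) y = y) (hfy : actC C X f y = y) :
    actC C X (mvZ P f a j j) y = y := by
  rw [mvZ_to P f haj, map_add, LinearMap.add_apply, hfy]
  have h1 : actC C X (P j) y = 0 := by
    have h2 := hd.act_P j a y
    rw [if_neg haj] at h2
    rwa [hPy] at h2
  rw [h1, zero_add]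

/-- The two forms of the conjecture (C). -/
lemma stepC_iff (ν : ℤ) : StepC (X := X) H p n ν ↔
    ∀ π π' : ℤ → Cor C X, IsMotiveCK (X := X) H p n π → IsMotiveCK (X := X) H p n π' →
      ∀ l : ℤ, motiveFil (X := X) C n π l ν = motiveFil (X := X) C n π' l ν := by
  constructor
  · intro hC π π' hπ hπ' l
    ext z
    rw [mem_motiveFil hπ, mem_motiveFil hπ']
    constructor
    · rintro ⟨h1, h2, h3⟩
      exact ⟨h1, h2, (hC π π' hπ hπ' l z h1 h2).1 h3⟩
    · rintro ⟨h1, h2, h3⟩
      exact ⟨h1, h2, (hC π π' hπ hπ' l z h1 h2).2 h3⟩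
  · intro hC π π' hπ hπ' l z hz hpz
    have h1 : motiveFil (X := X) C n π l ν = motiveFil (X := X) C n π' l ν := hC π π' hπ hπ' l
    have h2 : z ∈ motiveFil (X := X) C n π l ν ↔ z ∈ motiveFil (X := X) C n π' l ν := by rw [h1]
    rw [mem_motiveFil hπ, mem_motiveFil hπ'] at h2
    constructor
    · intro h3
      exact (h2.1 ⟨hz, hpz, h3⟩).2.2
    · intro h3
      exact (h2.2 ⟨hz, hpz, h3⟩).2.2

/-- **Murre's conjectures for all decompositions of a motive.** -/
theorem tfae_motive (h : IsMotiveCK (X := X) H p n P) (hT : NoLowering (X := X) C P)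
    (hB : MotiveB (X := X) C n P) (hD : MotiveD (X := X) H n P) :
    List.TFAE [MotiveC (X := X) H p n, MotiveCZero (X := X) H p n,
      ∀ π, IsMotiveCK (X := X) H p n π → MotiveB (X := X) C n π,
      ∀ π, IsMotiveCK (X := X) H p n π → MotiveD (X := X) H n π,
      NoPhantomCycles (X := X) H p, ∀ i, NoPhantomCycles (X := X) H (P i)] := by
  have hd := dec_of h
  tfae_have 5 → 6 := by
    intro hp i e he hee h1 h2 hcl x
    let e' : Cor C X := e
    have h1' : e' * P i = e' := h1
    have h2' : P i * e' = e' := h2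
    refine hp e he hee ?_ ?_ hcl x
    · have h3 : e' * p = e' := by rw [← h1', mul_assoc, hd.mul_p i]
      exact h3
    · have h3 : p * e' = e' := by rw [← h2', ← mul_assoc, hd.p_mul i]
      exact h3
  tfae_have 6 → 5 := by
    intro hq
    by_contra hp
    obtain ⟨l, a, f, y, hf, hff, hcl, hPf, hfP, hy, hy0, hPy, hfy, -⟩ := exists_cycle h hT hp
    exact hy0 (hfy.symm.trans (hq a f hf hff hfP hPf hcl y))
  tfae_have 1 → 2 := fun hc π π' hπ hπ' l => hc π π' hπ hπ' l 0
  tfae_have 5 → 1 := fun hp π π' hπ hπ' l ν =>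
    (indep_of_phantoms h hT hp hπ l ν).symm.trans (indep_of_phantoms h hT hp hπ' l ν)
  tfae_have 2 → 5 := by
    intro hc
    by_contra hp
    obtain ⟨l, a, f, y, hf, hff, hcl, hPf, hfP, hy, hy0, hPy, hfy, -⟩ := exists_cycle h hT hp
    have ha : 2 * l ≤ a := by
      by_contra hcon
      exact hy0 (hPy.symm.trans (hB l a (by omega) y hy))
    have hja : 2 * l - 1 ≠ a := by omega
    have hck := move_ck h hf hff hcl hja hPf hfP
    have h1 : y ∈ motiveFil (X := X) C n P l 0 := by
      rw [mem_motiveFil h]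
      refine ⟨hy, ?_, fun i hi => ?_⟩
      · rw [← hPy, ← act_mul, hd.p_mul a]
      · have h2 := hd.act_P i a y
        rw [if_neg (by omega)] at h2
        rwa [hPy] at h2
    rw [hc _ _ h hck l, mem_motiveFil hck] at h1
    have h2 := h1.2.2 (2 * l - 1) (by omega)
    exact hy0 ((move_act_self hd hja hPy hfy).symm.trans h2)
  tfae_have 3 → 5 := by
    intro hc
    by_contra hp
    obtain ⟨l, a, f, y, hf, hff, hcl, hPf, hfP, hy, hy0, hPy, hfy, -⟩ := exists_cycle h hT hp
    have ha : 2 * l ≤ a := by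
      by_contra hcon
      exact hy0 (hPy.symm.trans (hB l a (by omega) y hy))
    have hja : 2 * l - 1 ≠ a := by omega
    have hck := move_ck h hf hff hcl hja hPf hfP
    have h2 := hc _ hck l (2 * l - 1) (by omega) y hy
    exact hy0 ((move_act_self hd hja hPy hfy).symm.trans h2)
  tfae_have 4 → 5 := by
    intro hc
    by_contra hp
    obtain ⟨l, a, f, y, hf, hff, hcl, hPf, hfP, hy, hy0, hPy, hfy, hcy⟩ := exists_cycle h hT hp
    have hja : 2 * l ≠ a := by
      rintro rfl
      exact hy0 (hPy.symm.trans (hD l y hy hcy))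
    have hck := move_ck h hf hff hcl hja hPf hfP
    have h2 := hc _ hck l y hy hcy
    exact hy0 ((move_act_self hd hja hPy hfy).symm.trans h2)
  -- the components of a class with respect to another decomposition
  have hpmem : p ∈ cor0 C X := by
    rw [← hd.sum]
    exact (cor0 C X).sum_mem fun i _ => hd.mem i
  have hpp : p * p = p := by
    have h3 : (∑ i ∈ h.finite.toFinset, P i) * p = ∑ i ∈ h.finite.toFinset, P i := by
      rw [Finset.sum_mul]
      exact Finset.sum_congr rfl fun i _ => hd.mul_p i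
    rwa [hd.sum] at h3
  have hcomp : ∀ (π : ℤ → Cor C X) (hπ : IsMotiveCK (X := X) H p n π) (l ν : ℤ),
      motiveFil (X := X) C n P l ν = motiveFil (X := X) C n π l ν → ∀ z : C.A X,
      z ∈ C.gr X ((X.dim : ℤ) - (l - n)) →
      (∀ i, i < 2 * l + ν → actC C X (P i) z = 0) →
      ∀ i, i < 2 * l + ν → actC C X (π i) z = 0 := by
    intro π hπ l ν hF z hz h1 i hi
    have hd' := dec_of hπ
    have h2 : actC C X p z ∈ motiveFil (X := X) C n P l ν := by
      rw [mem_motiveFil h]
      refine ⟨act_mem0 C hpmem hz, ?_, fun c hc => ?_⟩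
      · rw [← act_mul, hpp]
      · rw [← act_mul, hd.mul_p c]
        exact h1 c hc
    rw [hF, mem_motiveFil hπ] at h2
    have h3 := h2.2.2 i hi
    rwa [← act_mul, hd'.mul_p i] at h3
  tfae_have 1 → 3 := by
    intro hc π hπ l i hi z hz
    exact hcomp π hπ l 0 (hc _ _ h hπ l 0) z hz
      (fun i hi => hB l i (by omega) z hz) i (by omega)
  tfae_have 1 → 4 := by
    intro hc π hπ l z hz hcl
    refine hcomp π hπ l 1 (hc _ _ h hπ l 1) z hz (fun i hi => ?_) (2 * l) (by omega)
    by_cases h1 : i < 2 * l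
    · exact hB l i h1 z hz
    · have h2 : i = 2 * l := by omega
      subst h2
      exact hD l z hz hcl
  tfae_finish

end motive

end Pool.Agent.V5helper93.Murre
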