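import Pool.Agent.V5helper93.Murre.Family

/-!
# The Tate twists of motives of surfaces form a tame family
-/

set_option autoImplicit false

open CategoryTheory AlgebraicGeometry

universe u v w

namespace Pool.Agent.V5helper93.Murre

open Pool.Agent.H914 Pool.Agent.H914.VarClass Pool.Agent.H914.VarClass.Obj Pool.Agent.W492.BB
  Pool.Agent.W550.Corr Pool.Agent.TH133 Pool.Agent.X308.S

variable {k : Type u} [Field k] {𝒱 : VarClass k} {C : TheoryData.{u, v, 0} 𝒱 ℚ}
  [hC : IsChowProj C] {K : Type w} [Field K]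
  {H : WeilTheoryData.{u, v, w} C K} [hH : IsWeilProj H] {S : 𝒱.Obj}
  {π : ℕ → C.A (S.prod S)}

/-- The decomposition of the twist. -/
noncomputable def twi (π : ℕ → C.A (S.prod S)) (n i : ℤ) : C.A (S.prod S) :=
  if 0 ≤ 4 - (i - 2 * n) then π (4 - (i - 2 * n)).toNat else 0

lemma twi_of {n i : ℤ} {j : ℕ} (h : (j : ℤ) = 4 - (i - 2 * n)) : twi π n i = π j := by
  unfold twi
  rw [if_pos (by omega), ← h, Int.toNat_natCast]

lemma twi_neg {n i : ℤ} (h : 4 - (i - 2 * n) < 0) : twi π n i = 0 := by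
  unfold twi
  rw [if_neg (by omega)]

lemma twi_cases (π : ℕ → C.A (S.prod S)) (n i : ℤ) :
    (∃ j : ℕ, (j : ℤ) = 4 - (i - 2 * n) ∧ twi π n i = π j) ∨
      (4 - (i - 2 * n) < 0 ∧ twi π n i = 0) := by
  by_cases h : 0 ≤ 4 - (i - 2 * n)
  · obtain ⟨j, hj⟩ := Int.eq_ofNat_of_zero_le h
    exact Or.inl ⟨j, hj.symm, twi_of hj.symm⟩
  · exact Or.inr ⟨by omega, twi_neg (by omega)⟩

include hC hH

omit hH in
lemma surf_wt (h : IsMurreCK H S π) (j : ℕ) : π j ∈ wt H S (j : ℤ) := by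
  apply Submodule.subset_span
  have hd := dg_mem C S
  refine ⟨S, π, j, 0, dg C S, dg C S, h, by ring, ?_, ?_, ?_⟩
  · rwa [sub_zero]
  · rw [h.dim] at hd
    simpa using hd
  · rw [comp_dg, dg_comp]

lemma surf_ck (h : IsMurreCK H S π) (n : ℤ) : IsMotiveCK H (dg C S) n (twi π n) := by
  have hd := h.dim
  have hsupp : {i | twi π n i ≠ 0} ⊆ ((Finset.range 5).image (fun j : ℕ => 4 + 2 * n - (j : ℤ)) :
      Finset ℤ) := by
    intro i hi
    rcases twi_cases π n i with ⟨j, hj, h1⟩ | ⟨h1, h2⟩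
    · rw [Finset.mem_coe, Finset.mem_image]
      refine ⟨j, ?_, by omega⟩
      by_contra hcon
      apply hi
      rw [h1]
      apply h.ck.out
      rw [Finset.mem_range] at hcon
      rw [hd]
      omega
    · exact absurd h2 hi
  refine ⟨(Finset.finite_toSet _).subset hsupp, fun i => ?_, fun i => ?_, fun i i' hii => ?_, ?_,
    fun i a ha => ?_, fun i m a hm ha => ?_⟩
  · rcases twi_cases π n i with ⟨j, hj, h1⟩ | ⟨h1, h2⟩
    · rw [h1]; exact h.ck.deg j
    · rw [h2]; exact Submodule.zero_mem _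
  · rcases twi_cases π n i with ⟨j, hj, h1⟩ | ⟨h1, h2⟩
    · rw [h1]; exact h.ck.idem j
    · rw [h2, comp_zero]
  · rcases twi_cases π n i with ⟨j, hj, h1⟩ | ⟨h1, h2⟩
    · rcases twi_cases π n i' with ⟨j', hj', h1'⟩ | ⟨h1', h2'⟩
      · rw [h1, h1']
        exact h.ck.orth j j' (by rintro rfl; omega)
      · rw [h2', comp_zero]
    · rw [h2, zero_comp]
  · rw [finsum_eq_sum_of_support_subset _ hsupp, Finset.sum_image (fun x _ y _ hxy => by
      have h9 : 4 + 2 * n - (x : ℤ) = 4 + 2 * n - (y : ℤ) := hxy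
      omega)]
    have h1 := h.ck.sum
    rw [hd] at h1
    rw [← h1]
    refine Finset.sum_congr rfl fun j _ => twi_of (by ring)
  · rw [hd] at ha
    rw [cl_dg, act_dg]
    rcases twi_cases π n i with ⟨j, hj, h1⟩ | ⟨h1, h2⟩
    · rw [h1]
      apply h.ck.act_self
      rw [hj]
      push_cast at ha
      rwa [show (4 : ℤ) - (i - 2 * n) = 2 * 2 - (i - 2 * n) by ring]
    · have h3 : a = 0 := hgr_neg ha (by push_cast; omega)
      rw [h2, h3, TheoryData.act_map_zero]
  · rw [hd] at hm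
    push_cast at hm
    rcases twi_cases π n i with ⟨j, hj, h1⟩ | ⟨h1, h2⟩
    · rw [h1]
      exact h.ck.act_ne j m a (by rw [hj]; omega) ha
    · rw [h2, map_zero, TheoryData.act_zero]

/-- The family of surfaces is tame. -/
theorem surfaces_tame (hS : SurfaceProperties H) : IsTame H (surfaces H) where
  ck := by
    rintro _ ⟨S, π, n, h, rfl⟩
    exact surf_ck h n
  B := by
    rintro _ ⟨S, π, n, h, rfl⟩ l i hi z hz
    have hz' : z ∈ C.gr S ((S.dim : ℤ) - (l - n)) := hz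
    rw [h.dim] at hz'
    push_cast at hz'
    change C.act (twi π n i) z = 0
    rcases twi_cases π n i with ⟨j, hj, h1⟩ | ⟨h1, h2⟩
    · rw [h1]
      exact wt_B0 (w := j) (l := 2 - (l - n)) (by omega) (surf_wt h j) hz'
    · rw [h2, TheoryData.act_zero]
  D := by
    rintro _ ⟨S, π, n, h, rfl⟩ l z hz hcl
    have hz' : z ∈ C.gr S ((S.dim : ℤ) - (l - n)) := hz
    rw [h.dim] at hz'
    push_cast at hz'
    change C.act (twi π n (2 * l)) z = 0
    rcases twi_cases π n (2 * l) with ⟨j, hj, h1⟩ | ⟨h1, h2⟩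
    · rw [h1]
      exact wt_D hS (w := j) (l := 2 - (l - n)) (by omega) (surf_wt h j) hz' hcl
    · rw [h2, TheoryData.act_zero]
  low := by
    rintro _ ⟨S, π, n, h, rfl⟩ _ ⟨S', π', n', h', rfl⟩ γ hγ a b hab
    have hγ' : γ ∈ C.gr (S.prod S') ((S'.dim : ℤ) + n' - n) := hγ
    rw [h'.dim] at hγ'
    push_cast at hγ'
    change C.comp (C.comp (twi π n a) γ) (twi π' n' b) = 0
    rcases twi_cases π n a with ⟨j, hj, h1⟩ | ⟨h1, h2⟩
    · rcases twi_cases π' n' b with ⟨j', hj', h1'⟩ | ⟨h1', h2'⟩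
      · rw [h1, h1']
        refine h.key hS h' (r := n' - n) ?_ (by omega)
        rwa [show (2 : ℤ) + (n' - n) = 2 + n' - n by ring]
      · rw [h2', comp_zero]
    · rw [h2, zero_comp, zero_comp]

end Pool.Agent.V5helper93.Murre
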